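import Pool.Agent.N184.AF.Alg

/-!
# Discrete valuation rings with prescribed orders along normal crossings
-/

set_option autoImplicit false

open IsLocalRing

namespace Pool.Agent.N184.LF

/-- The loci `t_j = 0` cross properly: every component of the locus `t_j = 0` for `j ∈ I` has
codimension at least (hence equal to) the number of elements of `I`. -/
def IsCrossing {A J : Type} [CommRing A] (t : J → A) : Prop :=
  ∀ (I : Finset J), ∀ x ∈ (Ideal.span (t '' I)).minimalPrimes, (I.card : ℕ∞) ≤ x.height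

/-- The ideal of `R` generated by `s (t j)` is the power `n j` of the maximal ideal, for every `j`: the
element `s (t j)` of the discrete valuation ring `R` has order `n j`. -/
def HasOrders {A J R : Type} [CommRing A] [CommRing R] [IsLocalRing R] (t : J → A) (s : A →+* R)
    (n : J → ℕ) : Prop :=
  ∀ j, Ideal.span {s (t j)} = maximalIdeal R ^ n j

section

variable {A J : Type} [CommRing A] [IsNoetherianRing A] [DecidableEq J] (t : J → A)

lemma exists_prime_off [DecidableEq A] (E : Finset A) (I : Finset J) {i₀ : J} (hi₀ : i₀ ∈ I)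
    {ξ : Ideal A} (hmin : ξ ∈ (Ideal.span ((E : Set A) ∪ t '' I)).minimalPrimes)
    (hht : ((E.card + I.card : ℕ) : ℕ∞) ≤ ξ.height) {m : J → ℕ} (hm : ∀ i ∈ I, 0 < m i) :
    ∃ k : Ideal A, k.IsPrime ∧ k ≤ ξ ∧ t i₀ ∉ k ∧ (∀ e ∈ E, e ∈ k) ∧
      ∀ i ∈ I, t i ^ m i₀ - t i₀ ^ m i ∈ k := by
  have hξp : ξ.IsPrime := hmin.1.1
  have hξE : ∀ e ∈ E, e ∈ ξ := fun e he => hmin.1.2 (Ideal.subset_span (Or.inl he))
  have hξt : ∀ i ∈ I, t i ∈ ξ := fun i hi =>
    hmin.1.2 (Ideal.subset_span (Or.inr ⟨i, hi, rfl⟩))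
  let F : Finset A := E ∪ (I.erase i₀).image (fun i => t i ^ m i₀ - t i₀ ^ m i)
  have hF : Ideal.span (F : Set A) ≤ ξ := by
    rw [Ideal.span_le]
    intro x hx
    rcases Finset.mem_union.1 (Finset.mem_coe.1 hx) with h | h
    · exact hξE x h
    · obtain ⟨i, hi, rfl⟩ := Finset.mem_image.1 h
      exact ξ.sub_mem (ξ.pow_mem_of_mem (hξt i (Finset.mem_of_mem_erase hi)) _ (hm i₀ hi₀))
        (ξ.pow_mem_of_mem (hξt i₀ hi₀) _ (hm i (Finset.mem_of_mem_erase hi)))
  obtain ⟨k, hk, hkξ⟩ := Ideal.exists_minimalPrimes_le hF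
  have hkp : k.IsPrime := hk.1.1
  have hkE : ∀ e ∈ E, e ∈ k := fun e he =>
    hk.1.2 (Ideal.subset_span (Finset.mem_coe.2 (Finset.mem_union_left _ he)))
  have hkr : ∀ i ∈ I, t i ^ m i₀ - t i₀ ^ m i ∈ k := by
    intro i hi
    by_cases h : i = i₀
    · rw [h, sub_self]
      exact k.zero_mem
    · exact hk.1.2 (Ideal.subset_span (Finset.mem_coe.2 (Finset.mem_union_right _
        (Finset.mem_image_of_mem _ (Finset.mem_erase.2 ⟨h, hi⟩)))))
  refine ⟨k, hkp, hkξ, fun h0 => ?_, hkE, hkr⟩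
  have hkt : ∀ i ∈ I, t i ∈ k := by
    intro i hi
    apply hkp.mem_of_pow_mem (m i₀)
    have h1 := k.add_mem (hkr i hi) (k.pow_mem_of_mem h0 _ (hm i hi))
    simpa using h1
  have hle : Ideal.span ((E : Set A) ∪ t '' I) ≤ k := by
    rw [Ideal.span_le]
    rintro x (hx | ⟨i, hi, rfl⟩)
    · exact hkE x hx
    · exact hkt i hi
  have heq : ξ ≤ k := hmin.2 ⟨hkp, hle⟩ hkξ
  have hcard : F.card + 1 ≤ E.card + I.card := by
    have h1 := Finset.card_union_le E ((I.erase i₀).image (fun i => t i ^ m i₀ - t i₀ ^ m i))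
    have h2 := Finset.card_image_le (s := I.erase i₀) (f := fun i => t i ^ m i₀ - t i₀ ^ m i)
    have h3 := Finset.card_erase_add_one hi₀
    change (E ∪ _).card + 1 ≤ _
    omega
  have h4 := Ideal.height_le_card_of_mem_minimalPrimes_span_finset hk
  have h5 : ξ.height ≤ k.height := Ideal.height_mono heq
  have h6 : ((E.card + I.card : ℕ) : ℕ∞) ≤ (F.card : ℕ∞) := hht.trans (h5.trans h4)
  have h7 : E.card + I.card ≤ F.card := by exact_mod_cast h6
  omega

end

/-- There is a discrete valuation ring over `A`, killed by the elements of `E` and centred at a point of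
the same stratum, in which the orders of the `t i` are proportional to the given numbers `m i`. -/
lemma exists_dvr_orders {A J : Type} [CommRing A] [IsNoetherianRing A] [DecidableEq J]
    [DecidableEq A] (t : J → A) (E : Finset A) (I : Finset J) {i₀ : J}
    (hi₀ : i₀ ∈ I) {ξ : Ideal A} (hmin : ξ ∈ (Ideal.span ((E : Set A) ∪ t '' I)).minimalPrimes)
    (hht : ((E.card + I.card : ℕ) : ℕ∞) ≤ ξ.height) {m : J → ℕ} (hm : ∀ i ∈ I, 0 < m i) :
    ∃ (R : Type) (_ : CommRing R) (_ : IsDomain R) (_ : IsDiscreteValuationRing R) (s : A →+* R),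
      (maximalIdeal R).comap s ≤ ξ ∧ (∀ e ∈ E, s e = 0) ∧
        (∀ i ∈ I, s (t i) ≠ 0 ∧ s (t i) ∈ maximalIdeal R) ∧
        ∀ i ∈ I, s (t i) ^ m i₀ = s (t i₀) ^ m i := by
  have hξp : ξ.IsPrime := hmin.1.1
  obtain ⟨k, hkp, hkξ, hk0, hkE, hkr⟩ := exists_prime_off t E I hi₀ hmin hht hm
  obtain ⟨R, i1, i2, i3, s, h1, h2, h3, h4⟩ := AF.exists_dvr k ξ hkξ
    (hmin.1.2 (Ideal.subset_span (Or.inr ⟨i₀, hi₀, rfl⟩))) hk0
  have hrel : ∀ i ∈ I, s (t i) ^ m i₀ = s (t i₀) ^ m i := by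
    intro i hi
    have := h4 _ (hkr i hi)
    rwa [map_sub, map_pow, map_pow, sub_eq_zero] at this
  refine ⟨R, i1, i2, i3, s, h3, fun e he => h4 e (hkE e he), fun i hi => ⟨fun h => ?_, ?_⟩, hrel⟩
  · have h5 := hrel i hi
    rw [h, zero_pow (hm i₀ hi₀).ne'] at h5
    exact h1 (pow_eq_zero_iff (hm i hi).ne' |>.1 h5.symm)
  · apply (inferInstance : (maximalIdeal R).IsPrime).mem_of_pow_mem (m i₀)
    rw [hrel i hi]
    exact Ideal.pow_mem_of_mem _ h2 _ (hm i hi)

section Orders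

variable {R : Type} [CommRing R] [IsDomain R] [IsDiscreteValuationRing R]

lemma exists_order {x : R} (hx : x ≠ 0) : ∃ n : ℕ, Ideal.span {x} = maximalIdeal R ^ n := by
  obtain ⟨ϖ, hϖ⟩ := IsDiscreteValuationRing.exists_irreducible R
  obtain ⟨n, hn⟩ := IsDiscreteValuationRing.associated_pow_irreducible hx hϖ
  refine ⟨n, ?_⟩
  rw [hϖ.maximalIdeal_eq, Ideal.span_singleton_pow]
  exact Ideal.span_singleton_eq_span_singleton.2 hn

lemma pow_maximalIdeal_injective {a b : ℕ} (h : maximalIdeal R ^ a = maximalIdeal R ^ b) :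
    a = b := by
  obtain ⟨ϖ, hϖ⟩ := IsDiscreteValuationRing.exists_irreducible R
  rw [hϖ.maximalIdeal_eq, Ideal.span_singleton_pow, Ideal.span_singleton_pow,
    Ideal.span_singleton_eq_span_singleton] at h
  obtain ⟨u, hu⟩ := h
  have key : ∀ {a b : ℕ} (u : Rˣ), ϖ ^ a * u = ϖ ^ b → b ≤ a := by
    intro a b u hu
    by_contra hlt
    push Not at hlt
    obtain ⟨c, rfl⟩ := Nat.exists_eq_add_of_lt hlt
    have h1 : ϖ ^ a * (u : R) = ϖ ^ a * (ϖ ^ c * ϖ) := by
      rw [hu]; ring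
    have h2 := mul_left_cancel₀ (pow_ne_zero a hϖ.ne_zero) h1
    exact hϖ.not_isUnit (isUnit_of_mul_isUnit_right (h2 ▸ u.isUnit))
  have h1 := key u hu
  have h2 := key u⁻¹ (by rw [← hu]; simp [mul_assoc] : ϖ ^ b * ((u⁻¹ : Rˣ) : R) = ϖ ^ a)
  omega

lemma hasOrders_unique {A J : Type} [CommRing A] {t : J → A} {s : A →+* R} {n n' : J → ℕ}
    (h : HasOrders t s n) (h' : HasOrders t s n') : n = n' := by
  funext j
  exact pow_maximalIdeal_injective ((h j).symm.trans (h' j))

lemma exists_hasOrders {A J : Type} [CommRing A] {t : J → A} {s : A →+* R}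
    (h : ∀ j, s (t j) ≠ 0) : ∃ n : J → ℕ, HasOrders t s n := by
  choose n hn using fun j => exists_order (h j)
  exact ⟨n, hn⟩

lemma HasOrders.ne_zero {A J : Type} [CommRing A] {t : J → A} {s : A →+* R} {n : J → ℕ}
    (h : HasOrders t s n) (j : J) : s (t j) ≠ 0 := by
  intro h0
  have h1 := h j
  rw [h0, Ideal.span_singleton_eq_bot.2 rfl] at h1
  have h2 : maximalIdeal R ≠ ⊥ := IsDiscreteValuationRing.not_a_field R
  exact pow_ne_zero (n j) h2 h1.symm

lemma HasOrders.pos_iff {A J : Type} [CommRing A] {t : J → A} {s : A →+* R} {n : J → ℕ}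
    (h : HasOrders t s n) (j : J) : 0 < n j ↔ s (t j) ∈ maximalIdeal R := by
  constructor
  · intro hn
    have h1 : s (t j) ∈ Ideal.span {s (t j)} := Ideal.mem_span_singleton_self _
    rw [h j] at h1
    exact Ideal.pow_le_self hn.ne' h1
  · intro hm
    by_contra h0
    have h1 := h j
    rw [Nat.eq_zero_of_not_pos h0, pow_zero, Ideal.one_eq_top, Ideal.span_singleton_eq_top] at h1
    exact (mem_maximalIdeal _).1 hm h1

/-- Powers: a relation between elements gives a relation between their orders. -/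
lemma order_relation {x y : R} {a b c d : ℕ} (hx : Ideal.span {x} = maximalIdeal R ^ a)
    (hy : Ideal.span {y} = maximalIdeal R ^ b) (h : x ^ c = y ^ d) : a * c = b * d := by
  apply pow_maximalIdeal_injective (R := R)
  rw [pow_mul, pow_mul, ← hx, ← hy, Ideal.span_singleton_pow, Ideal.span_singleton_pow, h]

end Orders

end Pool.Agent.N184.LF
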