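import Pool.Agent.N184.AF.Defs
import Pool.Agent.N184.WM.PDefs
import Pool.Agent.N184.LF.Cross

/-!
# Cohomology of projective families over rings of finite type over `ℤ`: definitions

`B` is a ring of finite type over `ℤ`, `𝔡` an ideal of `B` and `𝒳` a projective scheme over `Spec B` which
is smooth outside the closed subset `V(𝔡)`.

A *chart* is a `B`-algebra `A` with finitely many elements `t_j` whose zero loci cross normally, such that
the preimage of `V(𝔡)` is the union of the loci `t_j = 0` and the cohomology of the fibres of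
`𝒳 ×_B A` is tame and unipotent along them. Charts exist by the theorems on alterations (de Jong;
Gabber, Illusie, Temkin): over an alteration of `Spec B` there is a projective log smooth and
saturated scheme which dominates `𝒳`.
-/

set_option autoImplicit false

open IsLocalRing Pool.Agent.Y143 Pool.Agent.N184.WM

namespace Pool.Agent.N184.LF

/-! ### Log geometric fibres -/

/-- The cohomology, with coefficients in `Ω`, of a log geometric fibre: `V k` is the cohomology group in
degree `k`, `W k` its weight filtration, and `N k j` the logarithm of the monodromy around the `j`-th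
divisor. -/
structure LogFibre (Ω : Type) [Field Ω] (J : Type) where
  V : ℕ → Type
  [addCommGroup : ∀ k, AddCommGroup (V k)]
  [module : ∀ k, Module Ω (V k)]
  W : ∀ k, ℤ → Submodule Ω (V k)
  N : ∀ k, J → Module.End Ω (V k)

attribute [instance] LogFibre.addCommGroup LogFibre.module

section

variable {Ω : Type} [Field Ω] {J : Type}

/-- The logarithm `∑ n_j N_j` of the monodromy of the restriction to a discrete valuation ring in which
`t_j` has order `n_j`. -/
def LogFibre.monodromy [Fintype J] (F : LogFibre Ω J) (n : J → ℕ) (k : ℕ) :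
    Module.End Ω (F.V k) := ∑ j, n j • F.N k j

/-- For every degree `k`, the weight filtration of `V k`, centred at `k`, is the monodromy filtration
of `∑ n_j N_j`. -/
def LogFibre.IsPure [Fintype J] (F : LogFibre Ω J) (n : J → ℕ) : Prop :=
  ∀ k : ℕ, IsMonodromyFiltration (F.monodromy n k) (fun a => F.W k (k + a))

/-- The log geometric fibres `F` and `G` have the same cohomology: there are isomorphisms which respect
the weight filtrations and the `N_j` (up to a common factor, which comes from the choice of a
generator of the Tate twist). -/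
def Matches (F G : LogFibre Ω J) : Prop :=
  ∃ c : Ω, c ≠ 0 ∧ ∀ k, ∃ e : F.V k ≃ₗ[Ω] G.V k, (∀ w x, x ∈ F.W k w ↔ e x ∈ G.W k w) ∧
    ∀ j x, e (F.N k j x) = c • G.N k j (e x)

end

section

variable {A J : Type} [CommRing A] {Ω : ℕ → Type} [∀ ℓ, Field (Ω ℓ)]

/-- The cohomology is locally constant on the strata: if `y` is a specialization of `x` in the same
stratum (the same `t_j` vanish at `x` and at `y`) and `ℓ` is invertible at `y`, then the log geometric
fibres at `x` and `y` have the same cohomology. -/
def IsConstantOnStrata (t : J → A) (S : ∀ ℓ : ℕ, PrimeSpectrum A → LogFibre (Ω ℓ) J) : Prop :=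
  ∀ ℓ : ℕ, ℓ.Prime → ∀ x y : PrimeSpectrum A, x ≤ y →
    (∀ j, t j ∈ y.asIdeal → t j ∈ x.asIdeal) → (ℓ : A) ∉ y.asIdeal → Matches (S ℓ x) (S ℓ y)

/-- The monodromy-weight conjecture over discrete valuation rings `R` of equal characteristic
(Deligne; Terasoma and Ito for arbitrary residue fields) for the pull-backs of the family to `R` with
smooth generic fibre: the cohomology of the geometric generic fibre is that of the log geometric
fibre at the closed point, with monodromy `∑ n_j N_j` where `n_j` is the order of `t_j` in `R`. -/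
def HasEqualCharWMC [Fintype J] (t : J → A) (S : ∀ ℓ : ℕ, PrimeSpectrum A → LogFibre (Ω ℓ) J) :
    Prop :=
  ∀ (R : Type) [CommRing R] [IsDomain R] [IsDiscreteValuationRing R] (s : A →+* R),
    AF.IsEqualChar R → ∀ n : J → ℕ, HasOrders t s n →
      ∀ ℓ : ℕ, ℓ.Prime → IsUnit (ℓ : R) → (S ℓ (AF.closedPt s)).IsPure n

/-- Normal crossings: the loci `t_j = 0` cross properly on `Spec A`, and also on every component of the
fibre over a prime number `p` on which no `t_j` vanishes identically. -/
structure HasCrossings (t : J → A) : Prop where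
  crossing : IsCrossing t
  crossing_mod : ∀ p : ℕ, p.Prime → ∀ k ∈ (Ideal.span {(p : A)}).minimalPrimes, (∀ j, t j ∉ k) →
    IsCrossing (fun j => Ideal.Quotient.mk k (t j))

end

/-! ### The generic fibres over `p`-adic fields -/

section

variable {Ω : Type} [Field Ω] [CharZero Ω] {J : Type} [Fintype J]

/-- A power `g ^ a`, `a > 0`, of the element `g` of the Weil group acts (compatibly with `pull`) on
`V k` and its weight filtration `W`, and (Weil conjectures) its eigenvalues on the graded piece
`W_w / W_(w - 1)` are algebraic numbers all of whose complex conjugates have absolute value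
`p ^ (w val(g ^ a) / 2)`. -/
def ActsWithWeights (D : WeilModule.{0, 0} Ω) (F : LogFibre Ω J) (k p : ℕ)
    (pull : D.V →ₗ[Ω] F.V k) (g : D.G) : Prop :=
  ∃ (a : ℕ) (S : Module.End Ω (F.V k)), 0 < a ∧ Intertwines pull (D.op (g ^ a)) S ∧
    (∀ w x, x ∈ F.W k w → S x ∈ F.W k w) ∧
    ∀ (w : ℤ) (α : Ω) (x : F.V k), x ∈ F.W k w → x ∉ F.W k (w - 1) →
      S x - α • x ∈ F.W k (w - 1) → HasAbs ((p : ℝ) ^ ((w : ℝ) * (a * D.val g) / 2)) α

/-- `D.V` is, by `pull` and `push`, a direct summand of the cohomology `F.V k` of a log geometric
fibre, with the monodromy `∑ n_j N_j` (up to a factor) and compatibly with the action of the Weil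
group. -/
structure IsSummandOf (D : WeilModule.{0, 0} Ω) (F : LogFibre Ω J) (n : J → ℕ) (k p : ℕ)
    (pull : D.V →ₗ[Ω] F.V k) (push : F.V k →ₗ[Ω] D.V) : Prop where
  retract : IsRetract pull push
  pull_N : ∃ c : Ω, c ≠ 0 ∧ ∀ x, F.monodromy n k (pull x) = c • pull (D.N x)
  push_N : ∃ c : Ω, c ≠ 0 ∧ ∀ y, D.N (push y) = c • push (F.monodromy n k y)
  weights : ∀ g, ActsWithWeights D F k p pull g

end

/-- `O` is a henselian discrete valuation ring of characteristic `0` with finite residue field of
characteristic `p`, for example the ring of integers of a finite extension of `ℚ_p`. -/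
structure IsPadic (p : ℕ) (O : Type) [CommRing O] [IsLocalRing O] : Prop where
  henselian : HenselianLocalRing O
  charZero : CharZero O
  finite : Finite (ResidueField O)
  mem : (p : O) ∈ maximalIdeal O

/-- The cohomology groups `H^k(X_s)` of the fibres over the points `s` of `Spec B` with values in the
ring `O`, with coefficients in `Ω ℓ`, as representations of the Weil group of the fraction field
of `O`. -/
abbrev Cohomology (B : Type) [CommRing B] (Ω : ℕ → Type) [∀ ℓ, Field (Ω ℓ)] : Type 1 :=
  ∀ (O : Type) [CommRing O], (B →+* O) → ∀ ℓ : ℕ, ℕ → WeilModule.{0, 0} (Ω ℓ)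

section

variable {B : Type} [CommRing B] {Ω : ℕ → Type} [∀ ℓ, Field (Ω ℓ)] [∀ ℓ, CharZero (Ω ℓ)]

/-- The point `s` of `Spec B` with values in `O` lifts to the point `s'` of the `B`-algebra `A` with
values in the finite extension `O'` of `O`. -/
def IsLift {A O O' : Type} [CommRing A] [CommRing O] [CommRing O'] (β : B →+* A) (s : B →+* O)
    (φ : O →+* O') (s' : A →+* O') : Prop :=
  φ.Finite ∧ Function.Injective φ ∧ s'.comp β = φ.comp s

/-- The cohomology of the fibres over mixed characteristic points: if `s` lifts to the point `s'` of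
`Spec A` in which `t_j` has the order `n_j`, then `H^k(X_s)` is (a direct summand of) the cohomology of
the log geometric fibre at the closed point of `s'`, with monodromy `∑ n_j N_j`. -/
def ComputesCohomology {A J : Type} [CommRing A] [Fintype J] (coh : Cohomology B Ω) (β : B →+* A)
    (t : J → A) (S : ∀ ℓ : ℕ, PrimeSpectrum A → LogFibre (Ω ℓ) J) : Prop :=
  ∀ (p : ℕ) (O O' : Type) [CommRing O] [IsDomain O] [IsDiscreteValuationRing O] [CommRing O']
    [IsDomain O'] [IsDiscreteValuationRing O'] (s : B →+* O) (φ : O →+* O') (s' : A →+* O')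
    (n : J → ℕ), p.Prime → IsPadic p O → IsPadic p O' → IsLift β s φ s' → HasOrders t s' n →
      ∀ ℓ : ℕ, ℓ.Prime → ℓ ≠ p → ∀ k : ℕ, ∃ pull push,
        IsSummandOf (coh O s ℓ k) (S ℓ (AF.closedPt s')) n k p pull push

/-- A chart `A` over `B` with the normal crossings `t_j`, and the cohomology of the family over it. The
loci `t_j = 0` lie over `V(𝔡)`. -/
structure LogChart (𝔡 : Ideal B) (coh : Cohomology B Ω) where
  A : Type
  [commRing : CommRing A]
  [noetherian : IsNoetherianRing A]
  base : B →+* A
  J : Type
  [fintype : Fintype J]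
  t : J → A
  crossings : HasCrossings t
  disc : ∀ j, 𝔡.map base ≤ Ideal.span {t j}
  fibre : ∀ ℓ : ℕ, PrimeSpectrum A → LogFibre (Ω ℓ) J
  constant : IsConstantOnStrata t fibre
  equalChar : HasEqualCharWMC t fibre
  mixedChar : ComputesCohomology coh base t fibre

attribute [instance] LogChart.commRing LogChart.noetherian LogChart.fintype

/-- Alterations: every point `s` of `Spec B` outside `V(𝔡)` with values in a `p`-adic ring `O` lifts, after
a finite extension of `O`, to one of the charts. (The charts cover an alteration of `Spec B`, which is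
proper and surjective.) -/
def HasAlterations (𝔡 : Ideal B) {coh : Cohomology B Ω} {ι : Type} (chart : ι → LogChart 𝔡 coh) :
    Prop :=
  ∀ (p : ℕ) (O : Type) [CommRing O] [IsDomain O] [IsDiscreteValuationRing O] (s : B →+* O),
    p.Prime → IsPadic p O → 𝔡.map s ≠ ⊥ →
      ∃ (i : ι) (O' : Type) (_ : CommRing O') (_ : IsDomain O') (_ : IsDiscreteValuationRing O')
        (φ : O →+* O') (s' : (chart i).A →+* O'), IsPadic p O' ∧ IsLift (chart i).base s φ s'

/-- The cohomology of a projective scheme over `Spec B` which is smooth outside `V(𝔡)`, with finitely many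
charts. -/
structure ProjectiveFamily (𝔡 : Ideal B) (Ω : ℕ → Type) [∀ ℓ, Field (Ω ℓ)]
    [∀ ℓ, CharZero (Ω ℓ)] where
  coh : Cohomology B Ω
  twisted : ∀ (p : ℕ) (O : Type) [CommRing O] [IsDomain O] [IsDiscreteValuationRing O]
    (s : B →+* O), p.Prime → IsPadic p O → 𝔡.map s ≠ ⊥ → ∀ ℓ : ℕ, ℓ.Prime → ℓ ≠ p → ∀ k,
      (coh O s ℓ k).IsTwistedBy p
  ι : Type
  [fintype : Fintype ι]
  chart : ι → LogChart 𝔡 coh
  alterations : HasAlterations 𝔡 chart

attribute [instance] ProjectiveFamily.fintype

/-- The assertion of the weight-monodromy conjecture for the fibre `X_s` over the `p`-adic ring `O`, in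
all degrees `k` and for all `ℓ ≠ p`: for every `g` in the Weil group, every eigenvalue of `g` on the
graded piece `gr_a` of the monodromy filtration of `H^k(X_s)` is an algebraic number all of whose
complex conjugates have absolute value `p ^ ((k + a) val(g) / 2)`. -/
def ProjectiveFamily.WeightMonodromy {𝔡 : Ideal B} (X : ProjectiveFamily 𝔡 Ω) (p : ℕ) (O : Type)
    [CommRing O] (s : B →+* O) : Prop :=
  ∀ ℓ : ℕ, ℓ.Prime → ℓ ≠ p → ∀ (k : ℕ) (a : ℤ) (g : (X.coh O s ℓ k).G),
    (X.coh O s ℓ k).WeightMonodromyAt k p a g

end

end Pool.Agent.N184.LF
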