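import Pool.Agent.N184.LF.Pure

/-!
# Purity of the fibres of projective families
-/

set_option autoImplicit false

open IsLocalRing Pool.Agent.Y143 Pool.Agent.N184.WM

namespace Pool.Agent.N184.LF

section Point

variable {A J : Type} [CommRing A] [Fintype J] {Ω : ℕ → Type}
  [∀ ℓ, Field (Ω ℓ)] [∀ ℓ, CharZero (Ω ℓ)]

/-- The basic construction: a generic point `ξ` of a stratum in a closed subset `Spec A'` (`A'` is `A` or
a quotient of `A`) gives a discrete valuation ring of equal characteristic with the right orders. -/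
lemma isPure_generic {A' : Type} [CommRing A'] [IsNoetherianRing A'] (ρ : A →+* A') {t : J → A}
    {S : ∀ ℓ : ℕ, PrimeSpectrum A → LogFibre (Ω ℓ) J}
    (h2 : HasEqualCharWMC t S) (I : Finset J) (ξ y : PrimeSpectrum A')
    (hξ : ξ.asIdeal ∈ (Ideal.span ((fun j => ρ (t j)) '' I)).minimalPrimes) (hξy : ξ ≤ y)
    (hI : ∀ j, j ∈ I ↔ ρ (t j) ∈ y.asIdeal) (hht : (I.card : ℕ∞) ≤ ξ.asIdeal.height) {ℓ : ℕ}
    (hℓ : ℓ.Prime) (hℓy : (ℓ : A') ∉ y.asIdeal)
    (h0 : ∀ r : ℕ, r.Prime → (r : A') ∈ ξ.asIdeal → (r : A') = 0) (n : J → ℕ)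
    (hn : ∀ j, 0 < n j ↔ j ∈ I) :
    ∃ x : PrimeSpectrum A, (∀ a ∈ x.asIdeal, ρ a ∈ y.asIdeal) ∧
      (∀ j, ρ (t j) ∈ y.asIdeal → t j ∈ x.asIdeal) ∧ (S ℓ x).IsPure n := by
  classical
  rcases I.eq_empty_or_nonempty with hI0 | ⟨i₀, hi₀⟩
  · -- the constant family over a power series ring
    let κ := ξ.asIdeal.ResidueField
    let s' : A' →+* PowerSeries κ := (PowerSeries.C (R := κ)).comp (algebraMap A' κ)
    have hs' : ∀ a : A', s' a ∈ maximalIdeal (PowerSeries κ) ↔ a ∈ ξ.asIdeal := by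
      intro a
      rw [mem_maximalIdeal, mem_nonunits_iff, PowerSeries.isUnit_iff_constantCoeff]
      change ¬ IsUnit (PowerSeries.constantCoeff (PowerSeries.C (algebraMap A' κ a))) ↔ _
      rw [PowerSeries.constantCoeff_C, isUnit_iff_ne_zero, not_not,
        Ideal.algebraMap_residueField_eq_zero]
    let s : A →+* PowerSeries κ := s'.comp ρ
    have hpt : ∀ a, a ∈ (AF.closedPt s).asIdeal ↔ ρ a ∈ ξ.asIdeal := fun a => hs' (ρ a)
    have hy : ∀ j, ρ (t j) ∉ y.asIdeal := by
      intro j hj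
      rw [← hI, hI0] at hj
      exact absurd hj (Finset.notMem_empty j)
    refine ⟨AF.closedPt s, fun a ha => hξy ((hpt a).1 ha), fun j hj => absurd hj (hy j), ?_⟩
    refine h2 (PowerSeries κ) s ?_ n ?_ ℓ hℓ ?_
    · intro p hp hpm
      rw [show (p : PowerSeries κ) = s' (p : A') from (map_natCast s' p).symm] at hpm ⊢
      rw [h0 p hp ((hs' _).1 hpm), map_zero]
    · intro j
      have h3 : n j = 0 := by
        by_contra hne
        have := (hn j).1 (Nat.pos_of_ne_zero hne)
        rw [hI0] at this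
        exact absurd this (Finset.notMem_empty j)
      rw [h3, pow_zero, Ideal.one_eq_top, Ideal.span_singleton_eq_top]
      by_contra hu
      exact hy j (hξy ((hs' _).1 ((mem_maximalIdeal _).2 hu)))
    · by_contra hu
      apply hℓy
      apply hξy
      rw [← SetLike.mem_coe, SetLike.mem_coe, ← hs', map_natCast]
      exact (mem_maximalIdeal _).2 hu
  · obtain ⟨R, _, _, _, s', hc, -, hne, hrel⟩ := exists_dvr_orders (fun j => ρ (t j)) ∅ I hi₀
      (ξ := ξ.asIdeal) (by simpa using hξ) (by simpa using hht) (m := n)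
      (fun i hi => (hn i).2 hi)
    let s : A →+* R := s'.comp ρ
    have hx : ∀ a, a ∈ (AF.closedPt s).asIdeal → ρ a ∈ ξ.asIdeal := fun a ha => hc ha
    have hxt : ∀ j, ρ (t j) ∈ y.asIdeal → t j ∈ (AF.closedPt s).asIdeal := fun j hj =>
      (hne j ((hI j).2 hj)).2
    have hs0 : ∀ j, s (t j) ≠ 0 := by
      intro j
      by_cases hj : j ∈ I
      · exact (hne j hj).1
      · intro h
        apply hj
        rw [hI]
        apply hξy
        apply hx
        change s (t j) ∈ maximalIdeal R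
        rw [h]
        exact zero_mem _
    obtain ⟨m, hm⟩ := exists_hasOrders hs0
    refine ⟨AF.closedPt s, fun a ha => hξy (hx a ha), hxt, ?_⟩
    have hpure := h2 R s (fun r hr hrm => by
      have h3 : (r : A') ∈ ξ.asIdeal := by
        have h4 : (r : A) ∈ (AF.closedPt s).asIdeal := by
          change s (r : A) ∈ maximalIdeal R
          rwa [map_natCast]
        have h5 := hx _ h4
        rwa [map_natCast] at h5
      have h6 := congrArg s' (h0 r hr h3)
      rwa [map_natCast, map_zero] at h6) m hm ℓ hℓ (by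
      by_contra hu
      apply hℓy
      apply hξy
      have h4 : (ℓ : A) ∈ (AF.closedPt s).asIdeal := by
        change s (ℓ : A) ∈ maximalIdeal R
        rw [map_natCast]
        exact (mem_maximalIdeal _).2 hu
      have h5 := hx _ h4
      rwa [map_natCast] at h5)
    refine hpure.of_proportional (a := n i₀) (b := m i₀) ((hn i₀).2 hi₀)
      ((hm.pos_iff i₀).2 (hne i₀ hi₀).2) fun j => ?_
    by_cases hj : j ∈ I
    · have := order_relation (hm j) (hm i₀) (hrel j hj)
      rw [mul_comm, this]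
    · have h4 : n j = 0 := by
        by_contra h
        exact hj ((hn j).1 (Nat.pos_of_ne_zero h))
      have h5 : m j = 0 := by
        by_contra h
        have h6 := (hm.pos_iff j).1 (Nat.pos_of_ne_zero h)
        exact hj ((hI j).2 (hξy (hx _ h6)))
      rw [h4, h5, mul_zero, mul_zero]

end Point

section Chart

variable {B : Type} [CommRing B] {Ω : ℕ → Type} [∀ ℓ, Field (Ω ℓ)] [∀ ℓ, CharZero (Ω ℓ)]
  {𝔡 : Ideal B} {coh : Cohomology B Ω}

/-- The residue characteristics of the generic points of the strata. -/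
def LogChart.badPrimes (F : LogChart 𝔡 coh) : Set ℕ :=
  {p | p.Prime ∧ ∃ (I : Finset F.J), ∃ x ∈ (Ideal.span (F.t '' I)).minimalPrimes, (p : F.A) ∈ x}

lemma LogChart.finite_badPrimes (F : LogChart 𝔡 coh) : F.badPrimes.Finite := by
  have h1 : F.badPrimes = ⋃ I : Finset F.J, ⋃ x ∈ (Ideal.span (F.t '' I)).minimalPrimes,
      {p : ℕ | p.Prime ∧ (p : F.A) ∈ x} := by
    ext p
    simp only [LogChart.badPrimes, Set.mem_iUnion, Set.mem_ofPred_eq]
    constructor
    · rintro ⟨hp, I, x, hx, h⟩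
      exact ⟨I, x, hx, hp, h⟩
    · rintro ⟨I, x, hx, hp, h⟩
      exact ⟨hp, I, x, hx, h⟩
  rw [h1]
  refine Set.finite_iUnion fun I => ?_
  refine Set.Finite.biUnion (Ideal.finite_minimalPrimes_of_isNoetherianRing F.A _) fun x hx => ?_
  apply Set.Subsingleton.finite
  rintro a ⟨ha, ha'⟩ b ⟨hb, hb'⟩
  exact AF.prime_unique hx.1.1.ne_top hb ha hb' ha'

/-- Purity of the log geometric fibres in good residue characteristic. -/
theorem LogChart.isPure_of_notMem (F : LogChart 𝔡 coh) {p : ℕ} (hp : p.Prime)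
    (hbad : p ∉ F.badPrimes) (y : PrimeSpectrum F.A) (hy : (p : F.A) ∈ y.asIdeal) {ℓ : ℕ}
    (hℓ : ℓ.Prime) (hℓp : ℓ ≠ p) (n : F.J → ℕ) (hn : ∀ j, 0 < n j ↔ F.t j ∈ y.asIdeal) :
    (F.fibre ℓ y).IsPure n := by
  classical
  let I : Finset F.J := Finset.univ.filter fun j => F.t j ∈ y.asIdeal
  have hI : ∀ j, j ∈ I ↔ F.t j ∈ y.asIdeal := by
    intro j
    simp [I]
  have hle : Ideal.span (F.t '' I) ≤ y.asIdeal := by
    rw [Ideal.span_le]
    rintro _ ⟨j, hj, rfl⟩
    exact (hI j).1 hj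
  have hℓy : (ℓ : F.A) ∉ y.asIdeal := fun h =>
    hℓp (AF.prime_unique (A := F.A) y.2.ne_top hp hℓ hy h)
  obtain ⟨ξ, hξ, hξy⟩ := Ideal.exists_minimalPrimes_le hle
  have h0 : ∀ r : ℕ, r.Prime → (r : F.A) ∈ ξ → (r : F.A) = 0 := by
    intro r hr hrξ
    have h1 := AF.prime_unique (A := F.A) y.2.ne_top hp hr hy (hξy hrξ)
    subst h1
    exact absurd ⟨hr, I, ξ, hξ, hrξ⟩ hbad
  obtain ⟨x, hxy, hxt, hx⟩ := isPure_generic (RingHom.id F.A) F.equalChar I ⟨ξ, hξ.1.1⟩ y hξ hξy
    hI (F.crossings.crossing I ξ hξ) hℓ hℓy h0 n (fun j => (hn j).trans (hI j).symm)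
  exact (F.constant ℓ hℓ x y hxy hxt hℓy).isPure hx

/-- Purity of the log geometric fibres at points where the fibre over `p` has a component which is not
contained in the union of the loci `t_j = 0`. -/
theorem LogChart.isPure_of_not_pInG (F : LogChart 𝔡 coh) {p : ℕ} (hp : p.Prime)
    (y : PrimeSpectrum F.A) (hy : (p : F.A) ∈ y.asIdeal)
    (hpg : ¬ AF.PInG (∏ j, F.t j) p y.asIdeal) {ℓ : ℕ} (hℓ : ℓ.Prime) (hℓp : ℓ ≠ p)
    (n : F.J → ℕ) (hn : ∀ j, 0 < n j ↔ F.t j ∈ y.asIdeal) : (F.fibre ℓ y).IsPure n := by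
  classical
  obtain ⟨k', hk', hk'y, hgk', hpk'⟩ := AF.exists_prime_of_not_pInG hpg
  obtain ⟨k, hk, hkk'⟩ := Ideal.exists_minimalPrimes_le
    ((Ideal.span_singleton_le_iff_mem (x := (p : F.A)) k').2 hpk')
  have hkp : k.IsPrime := hk.1.1
  have hky : k ≤ y.asIdeal := hkk'.trans hk'y
  have htk : ∀ j, F.t j ∉ k := by
    intro j hj
    exact hgk' (Ideal.mem_of_dvd _ (Finset.dvd_prod_of_mem _ (Finset.mem_univ j)) (hkk' hj))
  have hcross := F.crossings.crossing_mod p hp k hk htk
  let ρ := Ideal.Quotient.mk k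
  have hker : RingHom.ker ρ ≤ y.asIdeal := by rw [Ideal.mk_ker]; exact hky
  have hyp : (y.asIdeal.map ρ).IsPrime :=
    Ideal.map_isPrime_of_surjective Ideal.Quotient.mk_surjective hker
  have hyc : ∀ a, ρ a ∈ y.asIdeal.map ρ ↔ a ∈ y.asIdeal := by
    intro a
    rw [← Ideal.mem_comap, Ideal.comap_map_of_surjective' _ Ideal.Quotient.mk_surjective,
      sup_eq_left.2 hker]
  let I : Finset F.J := Finset.univ.filter fun j => F.t j ∈ y.asIdeal
  have hI : ∀ j, j ∈ I ↔ F.t j ∈ y.asIdeal := by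
    intro j
    simp [I]
  have hle : Ideal.span ((fun j => ρ (F.t j)) '' I) ≤ y.asIdeal.map ρ := by
    rw [Ideal.span_le]
    rintro _ ⟨j, hj, rfl⟩
    exact (hyc _).2 ((hI j).1 hj)
  have hℓy : (ℓ : F.A) ∉ y.asIdeal := fun h =>
    hℓp (AF.prime_unique (A := F.A) y.2.ne_top hp hℓ hy h)
  obtain ⟨ξ, hξ, hξy⟩ := Ideal.exists_minimalPrimes_le hle
  have hp0 : ((p : ℕ) : F.A ⧸ k) = 0 := by
    have : ρ (p : F.A) = 0 :=
      Ideal.Quotient.eq_zero_iff_mem.2 (hk.1.2 (Ideal.mem_span_singleton_self _))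
    rwa [map_natCast] at this
  obtain ⟨x, hxy, hxt, hx⟩ := isPure_generic ρ F.equalChar I ⟨ξ, hξ.1.1⟩ ⟨_, hyp⟩ hξ hξy
    (fun j => (hI j).trans (hyc _).symm) (hcross I ξ hξ) hℓ
    (by rw [← map_natCast ρ, hyc]; exact hℓy) (by
      intro r hr hrξ
      have h1 := hξy hrξ
      rw [← map_natCast ρ, hyc] at h1
      have h2 := AF.prime_unique (A := F.A) y.2.ne_top hp hr hy h1
      subst h2
      exact hp0) n (fun j => (hn j).trans (hI j).symm)
  refine (F.constant ℓ hℓ x y (fun a ha => (hyc a).1 (hxy a ha)) (fun j hj => ?_) hℓy).isPure hx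
  exact hxt j ((hyc _).2 hj)

section

variable {R : Type} [CommRing R] [IsDomain R] [IsDiscreteValuationRing R]

lemma le_of_pow_le {a b : ℕ} (h : maximalIdeal R ^ a ≤ maximalIdeal R ^ b) : b ≤ a := by
  by_contra hlt
  push Not at hlt
  have h1 : maximalIdeal R ^ b ≤ maximalIdeal R ^ a := Ideal.pow_le_pow_right hlt.le
  have := pow_maximalIdeal_injective (le_antisymm h h1)
  omega

lemma span_prod_eq {J : Type} [Fintype J] {x : J → R} {n : J → ℕ}
    (h : ∀ j, Ideal.span {x j} = maximalIdeal R ^ n j) :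
    Ideal.span {∏ j, x j} = maximalIdeal R ^ ∑ j, n j := by
  classical
  rw [← Ideal.prod_span_singleton, ← Finset.prod_pow_eq_pow_sum]
  exact Finset.prod_congr rfl fun j _ => h j

end

/-- The constant for a chart. -/
theorem LogChart.exists_bound (F : LogChart 𝔡 coh) : ∃ C : ℕ, ∀ (p : ℕ) (O : Type) [CommRing O]
    [IsDomain O] [IsDiscreteValuationRing O] (s : F.A →+* O) (n : F.J → ℕ), p.Prime →
      (p : O) ∈ maximalIdeal O → (p : O) ≠ 0 → HasOrders F.t s n →
        (C ≤ p ∨ ∀ j, (p : O) ∈ Ideal.span {s (F.t j)} ^ C) → ∀ ℓ : ℕ, ℓ.Prime → ℓ ≠ p →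
          (F.fibre ℓ (AF.closedPt s)).IsPure n := by
  classical
  choose f hf using AF.exists_stable (∏ j, F.t j)
  obtain ⟨C, hC⟩ := (F.finite_badPrimes.image
    (fun p => max p (f p * Fintype.card F.J))).bddAbove
  refine ⟨C + 1, fun p O _ _ _ s n hp hpm hp0 hn hcond ℓ hℓ hℓp => ?_⟩
  have hy : (p : F.A) ∈ (AF.closedPt s).asIdeal := by
    change s (p : F.A) ∈ maximalIdeal O
    rwa [map_natCast]
  by_cases hbad : p ∈ F.badPrimes
  · by_cases hpg : AF.PInG (∏ j, F.t j) p (AF.closedPt s).asIdeal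
    · exfalso
      have h1 := hC (Set.mem_image_of_mem _ hbad)
      have h2 : p ≤ C := (le_max_left _ _).trans h1
      have h3 : f p * Fintype.card F.J ≤ C := (le_max_right _ _).trans h1
      rcases hcond with hcond | hcond
      · omega
      obtain ⟨N, u, hu, hN⟩ := hpg
      have h4 := hf p N u hN
      obtain ⟨e, he⟩ := exists_order hp0
      have he0 : 0 < e := by
        by_contra h
        rw [Nat.eq_zero_of_not_pos h, pow_zero, Ideal.one_eq_top,
          Ideal.span_singleton_eq_top] at he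
        exact (mem_maximalIdeal _).1 hpm he
      have hsu : IsUnit (s u) := by
        by_contra h
        exact hu ((mem_maximalIdeal _).2 h)
      -- `e ≤ f p * ∑ n j`
      have h5 : e ≤ (∑ j, n j) * f p := by
        apply le_of_pow_le (R := O)
        rw [pow_mul, ← span_prod_eq (fun j => hn j), ← map_prod, Ideal.span_singleton_pow, ← he,
          Ideal.span_singleton_le_iff_mem]
        obtain ⟨a, ha⟩ := Ideal.mem_span_singleton'.1 h4
        obtain ⟨v, hv⟩ := hsu
        refine Ideal.mem_span_singleton'.2 ⟨((v⁻¹ : Oˣ) : O) * s a, ?_⟩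
        have h6 := congrArg s ha
        rw [map_mul, map_mul, map_natCast, map_pow, ← hv] at h6
        rw [mul_assoc, h6, ← mul_assoc, Units.inv_mul, one_mul]
      have h6 : ∀ j, (C + 1) * n j ≤ e := by
        intro j
        have h7 := hcond j
        rw [hn j, ← pow_mul, ← Ideal.span_singleton_le_iff_mem, he] at h7
        have := le_of_pow_le h7
        rwa [mul_comm] at this
      have h7 : (C + 1) * ∑ j, n j ≤ Fintype.card F.J * e := by
        rw [Finset.mul_sum]
        calc ∑ j, (C + 1) * n j ≤ ∑ _j : F.J, e := Finset.sum_le_sum fun j _ => h6 j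
          _ = Fintype.card F.J * e := by simp
      have h8 : (C + 1) * ∑ j, n j ≤ C * ∑ j, n j := by
        calc (C + 1) * ∑ j, n j ≤ Fintype.card F.J * e := h7
          _ ≤ Fintype.card F.J * ((∑ j, n j) * f p) := Nat.mul_le_mul_left _ h5
          _ = (f p * Fintype.card F.J) * ∑ j, n j := by ring
          _ ≤ C * ∑ j, n j := Nat.mul_le_mul_right _ h3
      have h9 : ∑ j, n j = 0 := by
        rw [add_mul, one_mul] at h8
        omega
      rw [h9, zero_mul] at h5
      omega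
    · exact F.isPure_of_not_pInG hp _ hy hpg hℓ hℓp n fun j => hn.pos_iff j
  · exact F.isPure_of_notMem hp hbad _ hy hℓ hℓp n fun j => hn.pos_iff j

end Chart

section Family

variable {B : Type} [CommRing B] {Ω : ℕ → Type} [∀ ℓ, Field (Ω ℓ)] [∀ ℓ, CharZero (Ω ℓ)]
  {𝔡 : Ideal B}

lemma exists_bound_of_lift (X : ProjectiveFamily 𝔡 Ω) (i : X.ι) : ∃ C : ℕ, ∀ (p : ℕ) (O : Type)
    [CommRing O] [IsDomain O] [IsDiscreteValuationRing O] (s : B →+* O), p.Prime → IsPadic p O →
      𝔡.map s ≠ ⊥ → (C ≤ p ∨ (p : O) ∈ 𝔡.map s ^ C) →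
        ∀ (O' : Type) [CommRing O'] [IsDomain O'] [IsDiscreteValuationRing O'] (φ : O →+* O')
          (s' : (X.chart i).A →+* O'), IsPadic p O' → IsLift (X.chart i).base s φ s' →
            X.WeightMonodromy p O s := by
  obtain ⟨C, hC⟩ := (X.chart i).exists_bound
  refine ⟨C, fun p O _ _ _ s hp hO hs hcond O' _ _ _ φ s' hO' hlift ℓ hℓ hℓp k a g => ?_⟩
  have hcomp : ∀ b, s' ((X.chart i).base b) = φ (s b) := fun b => RingHom.congr_fun hlift.2.2 b
  have hmap : ∀ j, (𝔡.map s).map φ ≤ Ideal.span {s' ((X.chart i).t j)} := by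
    intro j
    rw [Ideal.map_map, ← hlift.2.2, ← Ideal.map_map]
    refine (Ideal.map_mono ((X.chart i).disc j)).trans ?_
    rw [Ideal.map_span, Set.image_singleton]
  have hne : ∀ j, s' ((X.chart i).t j) ≠ 0 := by
    intro j h
    apply hs
    rw [Submodule.eq_bot_iff]
    intro x hx
    have h1 := hmap j (Ideal.mem_map_of_mem φ hx)
    rw [h, Ideal.span_singleton_eq_bot.2 rfl, Submodule.mem_bot] at h1
    exact hlift.2.1 (by rw [h1, map_zero])
  obtain ⟨n, hn⟩ := exists_hasOrders hne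
  obtain ⟨pull, push, hS⟩ := (X.chart i).mixedChar p O O' s φ s' n hp hO hO' hlift hn ℓ hℓ hℓp k
  have hch := hO'.charZero
  refine weightMonodromyAt_of hp.pos (X.twisted p O s hp hO hs ℓ hℓ hℓp k) hS ?_ a g
  refine hC p O' s' n hp hO'.mem (Nat.cast_ne_zero.2 hp.ne_zero) hn ?_ ℓ hℓ hℓp
  rcases hcond with h | h
  · exact Or.inl h
  · refine Or.inr fun j => Ideal.pow_right_mono (hmap j) C ?_
    rw [← Ideal.map_pow, ← map_natCast φ]
    exact Ideal.mem_map_of_mem φ h

/-- **The weight-monodromy conjecture for the fibres of a projective family in large residue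
characteristic or with mild bad reduction.** -/
theorem ProjectiveFamily.exists_bound (X : ProjectiveFamily 𝔡 Ω) :
    ∃ C : ℕ, ∀ (p : ℕ) (O : Type) [CommRing O] [IsDomain O] [IsDiscreteValuationRing O]
      (s : B →+* O), p.Prime → IsPadic p O → 𝔡.map s ≠ ⊥ →
        (C ≤ p ∨ (p : O) ∈ 𝔡.map s ^ C) → X.WeightMonodromy p O s := by
  choose f hf using exists_bound_of_lift X
  refine ⟨∑ i, f i, fun p O _ _ _ s hp hO hs hcond => ?_⟩
  obtain ⟨i, O', _, _, _, φ, s', hO', hlift⟩ := X.alterations p O s hp hO hs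
  have hle : f i ≤ ∑ i, f i := Finset.single_le_sum (fun i _ => Nat.zero_le (f i))
    (Finset.mem_univ i)
  refine hf i p O s hp hO hs ?_ O' φ s' hO' hlift
  rcases hcond with h | h
  · exact Or.inl (hle.trans h)
  · exact Or.inr (Ideal.pow_le_pow_right hle h)

end Family

end Pool.Agent.N184.LF
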