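import Pool.Agent.N184.LF.Defs

/-!
# Hyodo-Kato cohomology of projective log smooth families: definitions
-/

set_option autoImplicit false

open IsLocalRing AlgebraicGeometry CategoryTheory Pool.Agent.Y143 Pool.Agent.N184.WM

namespace Pool.Agent.N184.LF

section

variable {A J : Type} [CommRing A] {Ω : ℕ → Type} [∀ p, Field (Ω p)]

/-- `S p x` is the log crystalline cohomology of the log fibre at a point `x` of residue characteristic
`p`. It is constant on the strata of `Spec A / p`: if `y` is a specialization of `x` and the same `t_j`
vanish at `x` and at `y`, the log fibres at `x` and `y` have the same cohomology. -/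
def IsConstantModP (t : J → A) (S : ∀ p : ℕ, PrimeSpectrum A → LogFibre (Ω p) J) : Prop :=
  ∀ p : ℕ, p.Prime → ∀ x y : PrimeSpectrum A, x ≤ y → (p : A) ∈ x.asIdeal →
    (∀ j, t j ∈ y.asIdeal → t j ∈ x.asIdeal) → Matches (S p x) (S p y)

/-- The `p`-adic monodromy-weight theorem over discrete valuation rings `R` of characteristic `p`
(Crew; Lazda and Pál), for the pull-backs of the family to `R` with smooth generic fibre: the cohomology
of the generic fibre is that of the log fibre at the closed point, with monodromy `∑ n_j N_j` where
`n_j` is the order of `t_j` in `R`. -/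
def HasWMCInCharP [Fintype J] (t : J → A) (S : ∀ p : ℕ, PrimeSpectrum A → LogFibre (Ω p) J) :
    Prop :=
  ∀ p : ℕ, p.Prime → ∀ (R : Type) [CommRing R] [IsDomain R] [IsDiscreteValuationRing R]
    (s : A →+* R), (p : R) = 0 → ∀ n : J → ℕ, HasOrders t s n → (S p (AF.closedPt s)).IsPure n

end

/-- A projective log smooth family over `(A, (t_j))`, with normal crossings: `fibre p x` is the log
crystalline cohomology, with coefficients in `Ω p` (an algebraically closed extension of `ℚ_p`), of the
log fibre at the point `x` of residue characteristic `p`. -/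
structure PadicChart (Ω : ℕ → Type) [∀ p, Field (Ω p)] where
  A : Type
  [commRing : CommRing A]
  [noetherian : IsNoetherianRing A]
  J : Type
  [fintype : Fintype J]
  t : J → A
  crossings : HasCrossings t
  fibre : ∀ p : ℕ, PrimeSpectrum A → LogFibre (Ω p) J
  constant : IsConstantModP t fibre
  charP : HasWMCInCharP t fibre

attribute [instance] PadicChart.commRing PadicChart.noetherian PadicChart.fintype

/-- A vector space with an action `Φ` of a Frobenius and a monodromy operator `N`. -/
structure FrobeniusModule (Ω : Type) [Field Ω] where
  V : Type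
  [addCommGroup : AddCommGroup V]
  [module : Module Ω V]
  Φ : Module.End Ω V
  N : Module.End Ω V

attribute [instance] FrobeniusModule.addCommGroup FrobeniusModule.module

section

variable {Ω : Type} [Field Ω] [CharZero Ω] {J : Type} [Fintype J]

/-- The relation `N Φ = q Φ N`. -/
def FrobeniusModule.IsTwistedBy (D : FrobeniusModule Ω) (q : ℕ) : Prop :=
  ∀ x, D.N (D.Φ x) = (q : Ω) • D.Φ (D.N x)

/-- A power `Φ ^ r`, `r > 0`, acts (compatibly with `pull`) on `V k` and its weight filtration `W`, and
(Weil conjectures) its eigenvalues on `W_w / W_(w - 1)` are `q ^ r`-Weil numbers of weight `w`. -/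
def HasWeights (D : FrobeniusModule Ω) (F : LogFibre Ω J) (k q : ℕ)
    (pull : D.V →ₗ[Ω] F.V k) : Prop :=
  ∃ (r : ℕ) (S : Module.End Ω (F.V k)), 0 < r ∧ Intertwines pull (D.Φ ^ r) S ∧
    (∀ w x, x ∈ F.W k w → S x ∈ F.W k w) ∧
    ∀ (w : ℤ) (α : Ω) (x : F.V k), x ∈ F.W k w → x ∉ F.W k (w - 1) →
      S x - α • x ∈ F.W k (w - 1) → IsWeilNumber (q ^ r) w α

/-- `D.V` is, by `pull` and `push`, a direct summand of the cohomology `F.V k` of a log fibre, with
the monodromy `∑ n_j N_j` (up to a factor) and compatibly with the Frobenius. -/
structure IsFrobeniusSummand (D : FrobeniusModule Ω) (F : LogFibre Ω J) (n : J → ℕ) (k q : ℕ)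
    (pull : D.V →ₗ[Ω] F.V k) (push : F.V k →ₗ[Ω] D.V) : Prop where
  retract : IsRetract pull push
  pull_N : ∃ c : Ω, c ≠ 0 ∧ ∀ x, F.monodromy n k (pull x) = c • pull (D.N x)
  push_N : ∃ c : Ω, c ≠ 0 ∧ ∀ y, D.N (push y) = c • push (F.monodromy n k y)
  weights : HasWeights D F k q pull

end

/-- The points of `B` with values in the fraction field of `O`. -/
abbrev GenericPoint (B : Scheme.{0}) (O : Type) [CommRing O] [IsDomain O] : Type :=
  Spec (CommRingCat.of (FractionRing O)) ⟶ B

/-- The image of a point with values in a field. -/
noncomputable def GenericPoint.image {B : Scheme.{0}} {O : Type} [CommRing O] [IsDomain O]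
    (s : GenericPoint B O) : B := s (closedPoint (FractionRing O))

section

variable {Ω : ℕ → Type} [∀ p, Field (Ω p)] [∀ p, CharZero (Ω p)]

/-- The cohomology groups `D k` of a smooth projective variety `X` over the fraction field of `O` (with
residue field of `q` elements) come from the log smooth family `F`: after a finite extension `O'` of
`O`, the variety `X` is dominated by the fibre of the log smooth family over a point `s` of the chart with
values in `O'` with `t_j ≠ 0` on `s`. So `D k` is a direct summand of the Hyodo-Kato cohomology of this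
fibre, which is that of the log fibre at the image of the closed point, with monodromy `∑ n_j N_j` where
`n_j` is the order of `t_j` in `O'`. -/
def IsDominatedBy (p : ℕ) (O : Type) [CommRing O] [IsLocalRing O]
    (D : ℕ → FrobeniusModule (Ω p)) (F : PadicChart Ω) : Prop :=
  ∃ (O' : Type) (_ : CommRing O') (_ : IsDomain O') (_ : IsDiscreteValuationRing O')
    (φ : O →+* O') (s : F.A →+* O') (n : F.J → ℕ), IsPadic p O' ∧ φ.Finite ∧
      Function.Injective φ ∧ HasOrders F.t s n ∧ ∀ k : ℕ, ∃ pull push,
        IsFrobeniusSummand (D k) (F.fibre p (AF.closedPt s)) n k (Nat.card (ResidueField O))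
          pull push

/-- The Hyodo-Kato cohomology of the fibres of a smooth projective family over `B`: for a `p`-adic ring
`O` with fraction field `K`, a point `s` in `B(K)` and a degree `k`, `coh p O s k` is the Hyodo-Kato
cohomology group `H^k` of the fibre over `s` with coefficients in `Ω p`, with the linearized
Frobenius and the monodromy `N`.

`reduction` is the semistable reduction theorem in families (Abramovich-Karu; Adiprasito-Liu-Temkin),
applied over `ℚ` to the closure of `T` in a projective compactification of the base and spread out: there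
are finitely many charts, with log smooth projective families over them, and a proper closed subset `T'`
of `T` (the image of the divisors `t_j = 0`), such that for large `p` every point `s` in `B(K)` in
`T ∖ T'` lifts (by properness, after a finite extension) to an integral point of one of the charts with
`t_j ≠ 0`, where the log smooth family dominates the given family. -/
structure SmoothFamily (B : Scheme.{0}) (Ω : ℕ → Type) [∀ p, Field (Ω p)]
    [∀ p, CharZero (Ω p)] where
  coh : ∀ (p : ℕ) (O : Type) [CommRing O] [IsDomain O], GenericPoint B O → ℕ →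
    FrobeniusModule (Ω p)
  twisted : ∀ (p : ℕ) (O : Type) [CommRing O] [IsDomain O] [IsDiscreteValuationRing O],
    IsPadic p O → ∀ (s : GenericPoint B O) (k : ℕ),
      (coh p O s k).IsTwistedBy (Nat.card (ResidueField O))
  Chart : Type
  chart : Chart → PadicChart Ω
  reduction : ∀ T : TopologicalSpace.Closeds B, IsIrreducible (T : Set B) →
    ∃ T' : TopologicalSpace.Closeds B, T' < T ∧ ∃ (S : Finset Chart) (M : ℕ),
      ∀ (p : ℕ) (O : Type) [CommRing O] [IsDomain O] [IsDiscreteValuationRing O],
        p.Prime → M ≤ p → IsPadic p O → ∀ s : GenericPoint B O, s.image ∈ T → s.image ∉ T' →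
          ∃ i ∈ S, IsDominatedBy p O (coh p O s) (chart i)

/-- The `p`-adic weight-monodromy conjecture for the groups `D k`, in all degrees. -/
def IsPureInAllDegrees {p : ℕ} (q : ℕ) (D : ℕ → FrobeniusModule (Ω p)) : Prop :=
  ∀ k : ℕ, IsMWPure q k (D k).Φ (D k).N

end

end Pool.Agent.N184.LF
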