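import Pool.Agent.N184.LF.PDefs
import Pool.Agent.N184.LF.Main

/-!
# The p-adic weight-monodromy conjecture in large residue characteristic
-/

set_option autoImplicit false

open IsLocalRing AlgebraicGeometry CategoryTheory Pool.Agent.Y143 Pool.Agent.N184.WM Polynomial

namespace Pool.Agent.N184.LF

/-- mw purity of a direct summand. -/
theorem isMWPure_of_summand {Ω : Type} [Field Ω] [CharZero Ω] {J : Type} [Fintype J]
    {D : FrobeniusModule Ω} {F : LogFibre Ω J} {n : J → ℕ} {k q : ℕ} (hq : 0 < q)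
    (hD : D.IsTwistedBy q) {pull : D.V →ₗ[Ω] F.V k} {push : F.V k →ₗ[Ω] D.V}
    (hS : IsFrobeniusSummand D F n k q pull push) (hF : F.IsPure n) : IsMWPure q k D.Φ D.N := by
  have hW := hF k
  have hqΩ : (q : Ω) ≠ 0 := Nat.cast_ne_zero.2 hq.ne'
  have hqR : (0 : ℝ) < q := Nat.cast_pos.2 hq
  obtain ⟨c, hc, hcN⟩ := hS.pull_N
  obtain ⟨c', hc', hcN'⟩ := hS.push_N
  -- `N` is nilpotent
  have hnil : ∃ r : ℕ, D.N ^ r = 0 := by
    have hpow : ∀ (r : ℕ) x, (F.monodromy n k ^ r) (pull x) = c ^ r • pull ((D.N ^ r) x) := by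
      intro r
      induction r with
      | zero => intro x; simp
      | succ r ih =>
        intro x
        rw [_root_.pow_succ (F.monodromy n k), Module.End.mul_apply, hcN, map_smul, ih, smul_smul,
          ← _root_.pow_succ', _root_.pow_succ D.N, Module.End.mul_apply]
    obtain ⟨a, ha⟩ := hW.top
    obtain ⟨b, hb⟩ := hW.bot
    have hlow : ∀ (r : ℕ) (x : F.V k), (F.monodromy n k ^ r) x ∈ F.W k (k + (a - 2 * r)) := by
      intro r
      induction r with
      | zero =>
        intro x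
        have h1 : F.W k (k + a) = ⊤ := ha
        rw [show (k : ℤ) + (a - 2 * ((0 : ℕ) : ℤ)) = k + a by push_cast; ring, h1]
        trivial
      | succ r ih =>
        intro x
        rw [_root_.pow_succ', Module.End.mul_apply]
        have h1 := hW.map _ _ (ih x)
        rwa [show (k : ℤ) + (a - 2 * r - 2) = k + (a - 2 * ((r + 1 : ℕ) : ℤ)) by
          push_cast; ring] at h1
    refine ⟨(a - b).toNat, ?_⟩
    ext x
    have h1 := hlow (a - b).toNat (pull x)
    have h2 : F.W k (k + (a - 2 * ((a - b).toNat : ℤ))) ≤ F.W k (k + b) := by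
      refine hW.mono ?_
      have := Int.self_le_toNat (a - b)
      have h3 : (0 : ℤ) ≤ ((a - b).toNat : ℤ) := Int.natCast_nonneg _
      omega
    have h3 : F.W k (k + b) = ⊥ := hb
    have h4 := h2 h1
    rw [h3, Submodule.mem_bot, hpow] at h4
    have h5 := (smul_eq_zero.1 h4).resolve_left (pow_ne_zero _ hc)
    have h6 := hS.retract ((D.N ^ (a - b).toNat) x)
    rw [h5, map_zero] at h6
    rw [← h6]
    simp
  have hM := isMonodromyFiltration_monFil hnil
  set M := monFil D.N with hMdef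
  have hstab : ∀ (s : ℤ) x, x ∈ M s → D.Φ x ∈ M s := by
    intro s x hx
    exact IsMonodromyFiltrationOn.functorial hM.on hM.on D.Φ (fun _ _ => trivial)
      (c := (q : Ω)) hqΩ (fun x _ => hD x) s hx
  have hι : ∀ s x, x ∈ M s → pull x ∈ F.W k (k + s) := by
    intro s x hx
    exact IsMonodromyFiltrationOn.functorial hM.on hW.on pull (fun _ _ => trivial)
      hc (fun x _ => hcN x) s hx
  have hπ : ∀ s x, x ∈ F.W k (k + s) → push x ∈ M s := by
    intro s x hx
    exact IsMonodromyFiltrationOn.functorial hW.on hM.on push (fun _ _ => trivial)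
      hc' (fun x _ => hcN' x) s hx
  have hιn : ∀ s x, x ∉ M s → pull x ∉ F.W k (k + s) := by
    intro s x hx hc
    apply hx
    rw [← hS.retract x]
    exact hπ s _ hc
  obtain ⟨r, S, hr, hgS, -, hev⟩ := hS.weights
  refine ⟨M, hM, hstab, fun s α x hx hx' hα => ?_⟩
  have hpow : ∀ a : ℕ, (D.Φ ^ a) x - α ^ a • x ∈ M (s - 1) := by
    intro a
    induction a with
    | zero => simp
    | succ a ih =>
      have e : (D.Φ ^ (a + 1)) x - α ^ (a + 1) • x =
          D.Φ ((D.Φ ^ a) x - α ^ a • x) + α ^ a • (D.Φ x - α • x) := by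
        rw [map_sub, map_smul, _root_.pow_succ' D.Φ, Module.End.mul_apply, smul_sub, smul_smul,
          ← _root_.pow_succ]
        abel
      rw [e]
      exact Submodule.add_mem _ (hstab _ _ ih) (Submodule.smul_mem _ _ hα)
  have h1 := hι _ _ (hpow r)
  rw [map_sub, map_smul, hgS] at h1
  have h2 := hιn _ _ hx'
  rw [← add_sub_assoc] at h1 h2
  obtain ⟨h3, h4⟩ := hev (k + s) (α ^ r) (pull x) (hι _ _ hx) h2 h1
  refine ⟨IsAlgebraic.of_pow hr h3, fun z hz => ?_⟩
  have h5 := h4 _ (aeval_minpoly_pow hz r)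
  rw [norm_pow] at h5
  have h6 : ((q : ℝ) ^ ((((s + k : ℤ)) : ℝ) / 2)) ^ r =
      ((q ^ r : ℕ) : ℝ) ^ ((((k + s : ℤ) : ℤ) : ℝ) / 2) := by
    rw [← Real.rpow_natCast, ← Real.rpow_mul hqR.le, Nat.cast_pow, ← Real.rpow_natCast,
      ← Real.rpow_mul hqR.le]
    congr 1
    push_cast
    ring
  rw [← h6] at h5
  exact (pow_left_inj₀ (norm_nonneg z) (Real.rpow_nonneg hqR.le _) hr.ne').1 h5

section Chart

variable {Ω : ℕ → Type} [∀ p, Field (Ω p)] [∀ p, CharZero (Ω p)]

/-- The residue characteristics of the generic points of the divisors `t_j = 0`. -/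
def PadicChart.badPrimes (F : PadicChart Ω) : Set ℕ :=
  {p | p.Prime ∧ ∃ j, ∃ x ∈ (Ideal.span {F.t j}).minimalPrimes, (p : F.A) ∈ x}

omit [∀ p, CharZero (Ω p)] in
lemma PadicChart.finite_badPrimes (F : PadicChart Ω) : F.badPrimes.Finite := by
  have h1 : F.badPrimes = ⋃ j : F.J, ⋃ x ∈ (Ideal.span {F.t j}).minimalPrimes,
      {p : ℕ | p.Prime ∧ (p : F.A) ∈ x} := by
    ext p
    simp only [PadicChart.badPrimes, Set.mem_iUnion, Set.mem_ofPred_eq]
    constructor
    · rintro ⟨hp, I, x, hx, h⟩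
      exact ⟨I, x, hx, hp, h⟩
    · rintro ⟨I, x, hx, hp, h⟩
      exact ⟨hp, I, x, hx, h⟩
  rw [h1]
  refine Set.finite_iUnion fun I => ?_
  refine Set.Finite.biUnion (Ideal.finite_minimalPrimes_of_isNoetherianRing F.A _) fun x hx => ?_
  apply Set.Subsingleton.finite
  rintro a ⟨ha, ha'⟩ b ⟨hb, hb'⟩
  exact AF.prime_unique hx.1.1.ne_top hb ha hb' ha'

omit [∀ p, CharZero (Ω p)] in
/-- For good `p`, no `t_j` vanishes on a component of the fibre over `p`. -/
lemma PadicChart.not_pInG (F : PadicChart Ω) {p : ℕ} (hp : p.Prime) (hbad : p ∉ F.badPrimes)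
    (y : PrimeSpectrum F.A) (hy : (p : F.A) ∈ y.asIdeal) :
    ¬ AF.PInG (∏ j, F.t j) p y.asIdeal := by
  classical
  rintro ⟨N, u, hu, hN⟩
  obtain ⟨k, hk, hky⟩ := Ideal.exists_minimalPrimes_le
    ((Ideal.span_singleton_le_iff_mem (x := (p : F.A)) y.asIdeal).2 hy)
  have hkp : k.IsPrime := hk.1.1
  have h1 := hk.1.2 hN
  have h2 : ∏ j, F.t j ∈ k := by
    rcases hkp.mem_or_mem h1 with h | h
    · exact absurd (hky h) hu
    · exact hkp.mem_of_pow_mem N h
  obtain ⟨j, -, hj⟩ := (hkp.prod_mem_iff).1 h2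
  obtain ⟨x, hx, hxk⟩ := Ideal.exists_minimalPrimes_le
    ((Ideal.span_singleton_le_iff_mem (x := F.t j) k).2 hj)
  have hxp : x.IsPrime := hx.1.1
  have hht : (1 : ℕ∞) ≤ x.height := by
    have := F.crossings.crossing {j} x (by simpa using hx)
    simpa using this
  have hkht : k.height ≤ 1 :=
    Ideal.height_le_one_of_isPrincipal_of_mem_minimalPrimes _ k hk
  have hxk' : x = k := by
    by_contra hne
    have hlt : x < k := lt_of_le_of_ne hxk hne
    have h3 := (Ideal.height_add_one_le_of_lt_of_isPrime hlt).trans hkht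
    have h4 : (1 : ℕ∞) + 1 ≤ 1 := (add_le_add_left hht 1).trans h3
    exact absurd h4 (by norm_num)
  apply hbad
  refine ⟨hp, j, x, hx, ?_⟩
  rw [hxk']
  exact hk.1.2 (Ideal.mem_span_singleton_self _)

/-- Purity of the log fibres at points where the fibre over `p` has a component which is not
contained in the union of the loci `t_j = 0`. -/
theorem PadicChart.isPure_of_not_pInG (F : PadicChart Ω) {p : ℕ} (hp : p.Prime)
    (y : PrimeSpectrum F.A) (hpg : ¬ AF.PInG (∏ j, F.t j) p y.asIdeal)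
    (n : F.J → ℕ) (hn : ∀ j, 0 < n j ↔ F.t j ∈ y.asIdeal) : (F.fibre p y).IsPure n := by
  classical
  obtain ⟨k', hk', hk'y, hgk', hpk'⟩ := AF.exists_prime_of_not_pInG hpg
  obtain ⟨k, hk, hkk'⟩ := Ideal.exists_minimalPrimes_le
    ((Ideal.span_singleton_le_iff_mem (x := (p : F.A)) k').2 hpk')
  have hkp : k.IsPrime := hk.1.1
  have hky : k ≤ y.asIdeal := hkk'.trans hk'y
  have htk : ∀ j, F.t j ∉ k := by
    intro j hj
    exact hgk' (Ideal.mem_of_dvd _ (Finset.dvd_prod_of_mem _ (Finset.mem_univ j)) (hkk' hj))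
  have hcross := F.crossings.crossing_mod p hp k hk htk
  let ρ := Ideal.Quotient.mk k
  have hker : RingHom.ker ρ ≤ y.asIdeal := by rw [Ideal.mk_ker]; exact hky
  have hyp : (y.asIdeal.map ρ).IsPrime :=
    Ideal.map_isPrime_of_surjective Ideal.Quotient.mk_surjective hker
  have hyc : ∀ a, ρ a ∈ y.asIdeal.map ρ ↔ a ∈ y.asIdeal := by
    intro a
    rw [← Ideal.mem_comap, Ideal.comap_map_of_surjective' _ Ideal.Quotient.mk_surjective,
      sup_eq_left.2 hker]
  let I : Finset F.J := Finset.univ.filter fun j => F.t j ∈ y.asIdeal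
  have hI : ∀ j, j ∈ I ↔ F.t j ∈ y.asIdeal := by
    intro j
    simp [I]
  have hle : Ideal.span ((fun j => ρ (F.t j)) '' I) ≤ y.asIdeal.map ρ := by
    rw [Ideal.span_le]
    rintro _ ⟨j, hj, rfl⟩
    exact (hyc _).2 ((hI j).1 hj)
  obtain ⟨ξ, hξ, hξy⟩ := Ideal.exists_minimalPrimes_le hle
  have hp0 : ((p : ℕ) : F.A ⧸ k) = 0 := by
    have : ρ (p : F.A) = 0 :=
      Ideal.Quotient.eq_zero_iff_mem.2 (hk.1.2 (Ideal.mem_span_singleton_self _))
    rwa [map_natCast] at this
  -- a discrete valuation ring of characteristic `p`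
  obtain ⟨x, hpx, hxy, hxt, hx⟩ : ∃ x : PrimeSpectrum F.A, (p : F.A) ∈ x.asIdeal ∧
      (∀ a ∈ x.asIdeal, a ∈ y.asIdeal) ∧ (∀ j, F.t j ∈ y.asIdeal → F.t j ∈ x.asIdeal) ∧
        (F.fibre p x).IsPure n := by
    have hξp : ξ.IsPrime := hξ.1.1
    rcases I.eq_empty_or_nonempty with hI0 | ⟨i₀, hi₀⟩
    · let κ := ξ.ResidueField
      let s' : F.A ⧸ k →+* PowerSeries κ := (PowerSeries.C (R := κ)).comp (algebraMap _ κ)
      have hs' : ∀ a, s' a ∈ maximalIdeal (PowerSeries κ) ↔ a ∈ ξ := by
        intro a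
        rw [mem_maximalIdeal, mem_nonunits_iff, PowerSeries.isUnit_iff_constantCoeff]
        change ¬ IsUnit (PowerSeries.constantCoeff (PowerSeries.C (algebraMap _ κ a))) ↔ _
        rw [PowerSeries.constantCoeff_C, isUnit_iff_ne_zero, not_not,
          Ideal.algebraMap_residueField_eq_zero]
      let s : F.A →+* PowerSeries κ := s'.comp ρ
      have hpt : ∀ a, a ∈ (AF.closedPt s).asIdeal ↔ ρ a ∈ ξ := fun a => hs' (ρ a)
      have hps : ((p : ℕ) : PowerSeries κ) = 0 := by
        rw [← map_natCast s' p, hp0, map_zero]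
      have hy : ∀ j, F.t j ∉ y.asIdeal := by
        intro j hj
        rw [← hI, hI0] at hj
        exact absurd hj (Finset.notMem_empty j)
      refine ⟨AF.closedPt s, ?_, fun a ha => (hyc a).1 (hξy ((hpt a).1 ha)),
        fun j hj => absurd hj (hy j), ?_⟩
      · rw [hpt, map_natCast, hp0]
        exact zero_mem _
      refine F.charP p hp (PowerSeries κ) s hps n fun j => ?_
      have h3 : n j = 0 := by
        by_contra hne
        exact hy j ((hn j).1 (Nat.pos_of_ne_zero hne))
      rw [h3, pow_zero, Ideal.one_eq_top, Ideal.span_singleton_eq_top]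
      by_contra hu
      exact hy j ((hyc _).1 (hξy ((hs' _).1 ((mem_maximalIdeal _).2 hu))))
    · obtain ⟨R, _, _, _, s', hc, -, hne, hrel⟩ := exists_dvr_orders (fun j => ρ (F.t j)) ∅ I hi₀
        (ξ := ξ) (by simpa using hξ) (by simpa using hcross I ξ hξ) (m := n)
        (fun i hi => (hn i).2 ((hI i).1 hi))
      let s : F.A →+* R := s'.comp ρ
      have hx : ∀ a, a ∈ (AF.closedPt s).asIdeal → a ∈ y.asIdeal := fun a ha =>
        (hyc a).1 (hξy (hc ha))
      have hps : ((p : ℕ) : R) = 0 := by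
        rw [← map_natCast s' p, hp0, map_zero]
      have hs0 : ∀ j, s (F.t j) ≠ 0 := by
        intro j
        by_cases hj : j ∈ I
        · exact (hne j hj).1
        · intro h
          apply hj
          rw [hI]
          apply hx
          change s (F.t j) ∈ maximalIdeal R
          rw [h]
          exact zero_mem _
      obtain ⟨m, hm⟩ := exists_hasOrders hs0
      refine ⟨AF.closedPt s, ?_, hx, fun j hj => (hne j ((hI j).2 hj)).2, ?_⟩
      · change s (p : F.A) ∈ maximalIdeal R
        rw [map_natCast, hps]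
        exact zero_mem _
      have hpure := F.charP p hp R s hps m hm
      refine hpure.of_proportional (a := n i₀) (b := m i₀) ((hn i₀).2 ((hI i₀).1 hi₀))
        ((hm.pos_iff i₀).2 (hne i₀ hi₀).2) fun j => ?_
      by_cases hj : j ∈ I
      · have := order_relation (hm j) (hm i₀) (hrel j hj)
        rw [mul_comm, this]
      · have h4 : n j = 0 := by
          by_contra h
          exact hj ((hI j).2 ((hn j).1 (Nat.pos_of_ne_zero h)))
        have h5 : m j = 0 := by
          by_contra h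
          exact hj ((hI j).2 (hx _ ((hm.pos_iff j).1 (Nat.pos_of_ne_zero h))))
        rw [h4, h5, mul_zero, mul_zero]
  exact (F.constant p hp x y hxy hpx hxt).isPure hx

/-- The constant for a chart. -/
theorem PadicChart.exists_bound (F : PadicChart Ω) : ∃ C : ℕ, ∀ (p : ℕ) (O : Type) [CommRing O]
    [IsDomain O] [IsDiscreteValuationRing O] (s : F.A →+* O) (n : F.J → ℕ), p.Prime →
      (p : O) ∈ maximalIdeal O → (p : O) ≠ 0 → HasOrders F.t s n →
        (C ≤ p ∨ ∀ j, (p : O) ∈ Ideal.span {s (F.t j)} ^ C) →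
          (F.fibre p (AF.closedPt s)).IsPure n := by
  classical
  choose f hf using AF.exists_stable (∏ j, F.t j)
  obtain ⟨C, hC⟩ := (F.finite_badPrimes.image
    (fun p => max p (f p * Fintype.card F.J))).bddAbove
  refine ⟨C + 1, fun p O _ _ _ s n hp hpm hp0 hn hcond => ?_⟩
  have hy : (p : F.A) ∈ (AF.closedPt s).asIdeal := by
    change s (p : F.A) ∈ maximalIdeal O
    rwa [map_natCast]
  refine F.isPure_of_not_pInG hp _ (fun hpg => ?_) n fun j => hn.pos_iff j
  by_cases hbad : p ∈ F.badPrimes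
  · have h1 := hC (Set.mem_image_of_mem _ hbad)
    have h2 : p ≤ C := (le_max_left _ _).trans h1
    have h3 : f p * Fintype.card F.J ≤ C := (le_max_right _ _).trans h1
    rcases hcond with hcond | hcond
    · omega
    obtain ⟨N, u, hu, hN⟩ := hpg
    have h4 := hf p N u hN
    obtain ⟨e, he⟩ := exists_order hp0
    have he0 : 0 < e := by
      by_contra h
      rw [Nat.eq_zero_of_not_pos h, pow_zero, Ideal.one_eq_top,
        Ideal.span_singleton_eq_top] at he
      exact (mem_maximalIdeal _).1 hpm he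
    have hsu : IsUnit (s u) := by
      by_contra h
      exact hu ((mem_maximalIdeal _).2 h)
    have h5 : e ≤ (∑ j, n j) * f p := by
      apply le_of_pow_le (R := O)
      rw [pow_mul, ← span_prod_eq (fun j => hn j), ← map_prod, Ideal.span_singleton_pow, ← he,
        Ideal.span_singleton_le_iff_mem]
      obtain ⟨a, ha⟩ := Ideal.mem_span_singleton'.1 h4
      obtain ⟨v, hv⟩ := hsu
      refine Ideal.mem_span_singleton'.2 ⟨((v⁻¹ : Oˣ) : O) * s a, ?_⟩
      have h6 := congrArg s ha
      rw [map_mul, map_mul, map_natCast, map_pow, ← hv] at h6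
      rw [mul_assoc, h6, ← mul_assoc, Units.inv_mul, one_mul]
    have h6 : ∀ j, (C + 1) * n j ≤ e := by
      intro j
      have h7 := hcond j
      rw [hn j, ← pow_mul, ← Ideal.span_singleton_le_iff_mem, he] at h7
      have := le_of_pow_le h7
      rwa [mul_comm] at this
    have h7 : (C + 1) * ∑ j, n j ≤ Fintype.card F.J * e := by
      rw [Finset.mul_sum]
      calc ∑ j, (C + 1) * n j ≤ ∑ _j : F.J, e := Finset.sum_le_sum fun j _ => h6 j
        _ = Fintype.card F.J * e := by simp
    have h8 : (C + 1) * ∑ j, n j ≤ C * ∑ j, n j := by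
      calc (C + 1) * ∑ j, n j ≤ Fintype.card F.J * e := h7
        _ ≤ Fintype.card F.J * ((∑ j, n j) * f p) := Nat.mul_le_mul_left _ h5
        _ = (f p * Fintype.card F.J) * ∑ j, n j := by ring
        _ ≤ C * ∑ j, n j := Nat.mul_le_mul_right _ h3
    have h9 : ∑ j, n j = 0 := by
      rw [add_mul, one_mul] at h8
      omega
    rw [h9, zero_mul] at h5
    omega
  · exact F.not_pInG hp hbad _ hy hpg

lemma card_residueField_pos {p : ℕ} {O : Type} [CommRing O] [IsLocalRing O] (h : IsPadic p O) :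
    0 < Nat.card (ResidueField O) := by
  have := h.finite
  exact Nat.card_pos

/-- **The `p`-adic weight-monodromy conjecture for the fibres of a smooth projective family in large
residue characteristic.** -/
theorem SmoothFamily.exists_bound {B : Scheme.{0}} [IsNoetherian B] (X : SmoothFamily B Ω) :
    ∃ C : ℕ, ∀ (p : ℕ) (O : Type) [CommRing O] [IsDomain O] [IsDiscreteValuationRing O],
      p.Prime → C ≤ p → IsPadic p O → ∀ s : GenericPoint B O,
        IsPureInAllDegrees (Nat.card (ResidueField O)) (X.coh p O s) := by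
  classical
  suffices key : ∀ T : TopologicalSpace.Closeds B, ∃ C : ℕ, ∀ (p : ℕ) (O : Type) [CommRing O]
      [IsDomain O] [IsDiscreteValuationRing O], p.Prime → C ≤ p → IsPadic p O →
        ∀ (s : GenericPoint B O), s.image ∈ T →
          IsPureInAllDegrees (Nat.card (ResidueField O)) (X.coh p O s) by
    obtain ⟨C, hC⟩ := key ⊤
    exact ⟨C, fun p O _ _ _ hp hCp hO s => hC p O hp hCp hO s trivial⟩
  intro T
  induction T using WellFoundedLT.induction with
  | ind T ih =>
  by_cases hirr : IsIrreducible (T : Set B)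
  · obtain ⟨T', hT', S, M, hred⟩ := X.reduction T hirr
    obtain ⟨C, hC⟩ := ih T' hT'
    choose f hf using fun F : PadicChart Ω => F.exists_bound
    obtain ⟨b, hb⟩ := (S.finite_toSet.image (fun i => f (X.chart i))).bddAbove
    refine ⟨max (max C M) b, fun p O _ _ _ hp hCp hO s hs => ?_⟩
    by_cases hs' : s.image ∈ T'
    · exact hC p O hp ((le_max_left _ _).trans ((le_max_left _ _).trans hCp)) hO s hs'
    · obtain ⟨i, hi, O', _, _, _, φ, s', n, hO', -, -, hn, hsum⟩ :=
        hred p O hp ((le_max_right _ _).trans ((le_max_left _ _).trans hCp)) hO s hs hs'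
      intro k
      obtain ⟨pull, push, hS⟩ := hsum k
      have hch := hO'.charZero
      refine isMWPure_of_summand (card_residueField_pos hO) (X.twisted p O hO s k) hS ?_
      refine hf (X.chart i) p O' s' n hp hO'.mem (Nat.cast_ne_zero.2 hp.ne_zero) hn (Or.inl ?_)
      exact ((hb (Set.mem_image_of_mem (fun i => f (X.chart i)) (Finset.mem_coe.2 hi))).trans
        (le_max_right _ _)).trans hCp
  · by_cases hne : (T : Set B).Nonempty
    · have hpre : ¬ IsPreirreducible (T : Set B) := fun h => hirr ⟨hne, h⟩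
      rw [isPreirreducible_iff_isClosed_union_isClosed] at hpre
      push Not at hpre
      obtain ⟨Z₁, Z₂, hZ₁, hZ₂, hsub, h1, h2⟩ := hpre
      let T₁ : TopologicalSpace.Closeds B := T ⊓ ⟨Z₁, hZ₁⟩
      let T₂ : TopologicalSpace.Closeds B := T ⊓ ⟨Z₂, hZ₂⟩
      have hT₁ : T₁ < T := lt_of_le_of_ne inf_le_left fun h => h1 (by
        intro x hx
        have : x ∈ T₁ := by rw [h]; exact hx
        exact this.2)
      have hT₂ : T₂ < T := lt_of_le_of_ne inf_le_left fun h => h2 (by
        intro x hx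
        have : x ∈ T₂ := by rw [h]; exact hx
        exact this.2)
      obtain ⟨C₁, hC₁⟩ := ih T₁ hT₁
      obtain ⟨C₂, hC₂⟩ := ih T₂ hT₂
      refine ⟨max C₁ C₂, fun p O _ _ _ hp hCp hO s hs => ?_⟩
      rcases hsub hs with h | h
      · exact hC₁ p O hp ((le_max_left _ _).trans hCp) hO s ⟨hs, h⟩
      · exact hC₂ p O hp ((le_max_right _ _).trans hCp) hO s ⟨hs, h⟩
    · exact ⟨0, fun p O _ _ _ hp hCp hO s hs => absurd ⟨_, hs⟩ hne⟩

/-- **Log smooth families.** -/
theorem PadicChart.isMWPure (F : PadicChart Ω) : ∃ C : ℕ, ∀ (p : ℕ) (O : Type) [CommRing O]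
    [IsDomain O] [IsDiscreteValuationRing O] (s : F.A →+* O) (n : F.J → ℕ), p.Prime →
      IsPadic p O → HasOrders F.t s n → (C ≤ p ∨ ∀ j, (p : O) ∈ Ideal.span {s (F.t j)} ^ C) →
        ∀ (k : ℕ) (D : FrobeniusModule (Ω p)) (pull : D.V →ₗ[Ω p] _) (push : _ →ₗ[Ω p] D.V),
          D.IsTwistedBy (Nat.card (ResidueField O)) →
            IsFrobeniusSummand D (F.fibre p (AF.closedPt s)) n k (Nat.card (ResidueField O)) pull
              push → IsMWPure (Nat.card (ResidueField O)) k D.Φ D.N := by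
  obtain ⟨C, hC⟩ := F.exists_bound
  refine ⟨C, fun p O _ _ _ s n hp hO hn hcond k D pull push hD hS => ?_⟩
  have hch := hO.charZero
  exact isMWPure_of_summand (card_residueField_pos hO) hD hS
    (hC p O s n hp hO.mem (Nat.cast_ne_zero.2 hp.ne_zero) hn hcond)

end Chart

end Pool.Agent.N184.LF
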