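import Pool.Agent.N184.LF.Defs
import Pool.Agent.Y143.Mon
import Pool.Agent.Y143.WeilNum
import Pool.Agent.N184.WM.Descent

/-!
# Transfer of purity
-/

set_option autoImplicit false

open IsLocalRing Pool.Agent.Y143 Pool.Agent.N184.WM Polynomial

namespace Pool.Agent.N184.LF

section

variable {Ω : Type} [Field Ω] {V V' : Type} [AddCommGroup V] [Module Ω V] [AddCommGroup V']
  [Module Ω V']

lemma smul_pow_apply (c : Ω) (N : Module.End Ω V) (a : ℕ) (x : V) :
    ((c • N) ^ a) x = c ^ a • (N ^ a) x := by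
  rw [_root_.smul_pow, LinearMap.smul_apply]

/-- The monodromy filtration does not change if `N` is multiplied by a factor. -/
lemma monFil_smul {N : Module.End Ω V} {M : ℤ → Submodule Ω V}
    (h : IsMonodromyFiltration N M) {c : Ω} (hc : c ≠ 0) : IsMonodromyFiltration (c • N) M where
  mono := h.mono
  bot := h.bot
  top := h.top
  map a x hx := (M _).smul_mem c (h.map a x hx)
  inj a x hx hx' := by
    rw [smul_pow_apply] at hx'
    exact h.inj a x hx ((Submodule.smul_mem_iff _ (pow_ne_zero a hc)).1 hx')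
  surj a y hy := by
    obtain ⟨x, hx, hx'⟩ := h.surj a y hy
    refine ⟨(c ^ a)⁻¹ • x, (M _).smul_mem _ hx, ?_⟩
    rw [smul_pow_apply, map_smul, smul_smul, mul_inv_cancel₀ (pow_ne_zero a hc), one_smul]
    exact hx'

/-- Transport along an isomorphism. -/
lemma monFil_transport {N : Module.End Ω V} {M : ℤ → Submodule Ω V}
    (h : IsMonodromyFiltration N M) (e : V ≃ₗ[Ω] V') {N' : Module.End Ω V'}
    {M' : ℤ → Submodule Ω V'} (hM : ∀ a x, x ∈ M a ↔ e x ∈ M' a) (hN : ∀ x, e (N x) = N' (e x)) :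
    IsMonodromyFiltration N' M' := by
  have hM' : ∀ a y, y ∈ M' a ↔ e.symm y ∈ M a := by
    intro a y
    rw [hM, LinearEquiv.apply_symm_apply]
  have hN' : ∀ y, N (e.symm y) = e.symm (N' y) := by
    intro y
    rw [← e.injective.eq_iff, hN, LinearEquiv.apply_symm_apply, LinearEquiv.apply_symm_apply]
  have hpow : ∀ (a : ℕ) y, (N ^ a) (e.symm y) = e.symm ((N' ^ a) y) := by
    intro a
    induction a with
    | zero => intro y; simp
    | succ a ih =>
      intro y
      rw [pow_succ, Module.End.mul_apply, hN', ih, pow_succ, Module.End.mul_apply]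
  refine ⟨fun a b hab y hy => ?_, ?_, ?_, fun a y hy => ?_, fun a y hy hy' => ?_,
    fun a y hy => ?_⟩
  · rw [hM'] at hy ⊢
    exact h.mono hab hy
  · obtain ⟨a, ha⟩ := h.bot
    refine ⟨a, ?_⟩
    rw [Submodule.eq_bot_iff]
    intro y hy
    rw [hM', ha, Submodule.mem_bot] at hy
    exact (LinearEquiv.map_eq_zero_iff _).1 hy
  · obtain ⟨a, ha⟩ := h.top
    refine ⟨a, ?_⟩
    rw [Submodule.eq_top_iff']
    intro y
    rw [hM', ha]
    trivial
  · rw [hM'] at hy ⊢
    rw [← hN']
    exact h.map a _ hy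
  · rw [hM'] at hy hy' ⊢
    rw [← hpow] at hy'
    exact h.inj a _ hy hy'
  · rw [hM'] at hy
    obtain ⟨x, hx, hx'⟩ := h.surj a _ hy
    refine ⟨e x, (hM _ _).1 hx, ?_⟩
    rw [hM', map_sub, ← hpow, LinearEquiv.symm_apply_apply]
    exact hx'

end

section

variable {Ω : Type} [Field Ω] {J : Type} [Fintype J]

/-- If the orders are proportional then the purities are equivalent. -/
lemma LogFibre.IsPure.of_proportional [CharZero Ω] {F : LogFibre Ω J} {n n' : J → ℕ}
    (h : F.IsPure n') {a b : ℕ} (ha : 0 < a) (hb : 0 < b) (hab : ∀ j, a * n' j = b * n j) :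
    F.IsPure n := by
  intro k
  have h1 := h k
  have h2 : F.monodromy n k = ((a : Ω) / (b : Ω)) • F.monodromy n' k := by
    have hb' : (b : Ω) ≠ 0 := Nat.cast_ne_zero.2 hb.ne'
    have h3 : (b : Ω) • F.monodromy n k = (a : Ω) • F.monodromy n' k := by
      unfold LogFibre.monodromy
      rw [Finset.smul_sum, Finset.smul_sum]
      refine Finset.sum_congr rfl fun j _ => ?_
      rw [← Nat.cast_smul_eq_nsmul Ω, ← Nat.cast_smul_eq_nsmul Ω, smul_smul, smul_smul,
        ← Nat.cast_mul, ← Nat.cast_mul, hab j]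
    rw [div_eq_inv_mul, mul_smul, ← h3, smul_smul, inv_mul_cancel₀ hb', one_smul]
  rw [h2]
  exact monFil_smul h1 (div_ne_zero (Nat.cast_ne_zero.2 ha.ne') (Nat.cast_ne_zero.2 hb.ne'))

lemma Matches.isPure {F G : LogFibre Ω J} (h : Matches F G) {n : J → ℕ} (hF : F.IsPure n) :
    G.IsPure n := by
  obtain ⟨c, hc, h⟩ := h
  intro k
  obtain ⟨e, h1, h2⟩ := h k
  have h3 := monFil_transport (hF k) e (N' := c • G.monodromy n k)
    (M' := fun a => G.W k (k + a)) (fun a x => h1 _ _) (fun x => by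
      unfold LogFibre.monodromy
      rw [LinearMap.sum_apply, map_sum, LinearMap.smul_apply, LinearMap.sum_apply,
        Finset.smul_sum]
      refine Finset.sum_congr rfl fun j _ => ?_
      rw [LinearMap.smul_apply, map_nsmul, h2, LinearMap.smul_apply, smul_comm])
  have h4 := monFil_smul h3 (inv_ne_zero hc)
  rwa [smul_smul, inv_mul_cancel₀ hc, one_smul] at h4

end

/-- **Descent**: the assertion of the weight-monodromy conjecture for a direct summand. -/
theorem weightMonodromyAt_of {Ω : Type} [Field Ω] [CharZero Ω] {J : Type} [Fintype J]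
    {D : WeilModule.{0, 0} Ω} {F : LogFibre Ω J} {n : J → ℕ} {k p : ℕ} (hp : 0 < p)
    (hD : D.IsTwistedBy p) {pull : D.V →ₗ[Ω] F.V k} {push : F.V k →ₗ[Ω] D.V}
    (hS : IsSummandOf D F n k p pull push) (hF : F.IsPure n) (s : ℤ) (g : D.G) :
    D.WeightMonodromyAt k p s g := by
  intro M hM
  have hW := hF k
  have hpΩ : (p : Ω) ≠ 0 := Nat.cast_ne_zero.2 hp.ne'
  have hpR : (0 : ℝ) < p := Nat.cast_pos.2 hp
  have hstab : ∀ (s : ℤ) x, x ∈ M s → D.op g x ∈ M s := by
    intro s x hx
    exact IsMonodromyFiltrationOn.functorial hM.on hM.on (D.op g) (fun _ _ => trivial)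
      (c := (p : Ω) ^ D.val g) (zpow_ne_zero _ hpΩ) (fun x _ => hD.twist g x) s hx
  obtain ⟨c, hc, hcN⟩ := hS.pull_N
  obtain ⟨c', hc', hcN'⟩ := hS.push_N
  have hι : ∀ s x, x ∈ M s → pull x ∈ F.W k (k + s) := by
    intro s x hx
    exact IsMonodromyFiltrationOn.functorial hM.on hW.on pull (fun _ _ => trivial)
      hc (fun x _ => hcN x) s hx
  have hπ : ∀ s x, x ∈ F.W k (k + s) → push x ∈ M s := by
    intro s x hx
    exact IsMonodromyFiltrationOn.functorial hW.on hM.on push (fun _ _ => trivial)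
      hc' (fun x _ => hcN' x) s hx
  have hιn : ∀ s x, x ∉ M s → pull x ∉ F.W k (k + s) := by
    intro s x hx hc
    apply hx
    rw [← hS.retract x]
    exact hπ s _ hc
  refine ⟨fun x hx => hstab s x hx, fun α x hx hx' hα => ?_⟩
  obtain ⟨a, S, ha, hgS, -, hev⟩ := hS.weights g
  have hpow : ∀ a : ℕ, D.op (g ^ a) x - α ^ a • x ∈ M (s - 1) := by
    intro a
    induction a with
    | zero => simp [op_one]
    | succ a ih =>
      have e : D.op (g ^ (a + 1)) x - α ^ (a + 1) • x =
          D.op g (D.op (g ^ a) x - α ^ a • x) + α ^ a • (D.op g x - α • x) := by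
        rw [map_sub, map_smul, pow_succ' g, op_mul, Module.End.mul_apply, smul_sub, smul_smul,
          ← pow_succ]
        abel
      rw [e]
      exact Submodule.add_mem _ (hstab _ _ ih) (Submodule.smul_mem _ _ hα)
  have h1 := hι _ _ (hpow a)
  rw [map_sub, map_smul, hgS] at h1
  have h2 := hιn _ _ hx'
  rw [← add_sub_assoc] at h1 h2
  obtain ⟨h3, h4⟩ := hev (k + s) (α ^ a) (pull x) (hι _ _ hx) h2 h1
  refine ⟨IsAlgebraic.of_pow ha h3, fun z hz => ?_⟩
  have h5 := h4 _ (aeval_minpoly_pow hz a)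
  rw [norm_pow] at h5
  have h6 : ((p : ℝ) ^ (((k : ℝ) + s) * D.val g / 2)) ^ a =
      (p : ℝ) ^ ((((k + s : ℤ) : ℤ) : ℝ) * (a * D.val g) / 2) := by
    rw [← Real.rpow_natCast, ← Real.rpow_mul hpR.le]
    congr 1
    push_cast
    ring
  rw [← h6] at h5
  exact (pow_left_inj₀ (norm_nonneg z) (Real.rpow_nonneg hpR.le _) ha.ne').1 h5

end Pool.Agent.N184.LF
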